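import Pool.Agent.Helper76.PC.Stmts

/-! MP_c33217_co: deletion of an edge and the weight. -/

namespace Pool.Agent.Helper76.PC

theorem we_deg (G : Gr) (a b : ℕ) (h : b ∈ G.N a) : degSum (delE G a b) + 2 = degSum G := by
  classical
  have hb : a ∈ G.N b := G.symm a b h
  have haV : a ∈ G.V := G.mem a b h
  have hbV : b ∈ G.V := G.mem b a hb
  have hab : a ≠ b := by
    intro e
    subst e
    exact G.bip a a h rfl
  have h1 : ∀ x ∈ G.V, (G.N x).card =
      ((delE G a b).N x).card + ((if x = a then 1 else 0) + (if x = b then 1 else 0)) := by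
    intro x _
    show (G.N x).card = (if x = a then (G.N x).erase b else if x = b then (G.N x).erase a
      else G.N x).card + ((if x = a then 1 else 0) + (if x = b then 1 else 0))
    by_cases hx : x = a
    · subst hx
      rw [if_pos rfl, if_pos rfl, if_neg hab, Finset.card_erase_of_mem h]
      have : 0 < (G.N x).card := Finset.card_pos.2 ⟨b, h⟩
      omega
    · by_cases hx2 : x = b
      · subst hx2
        rw [if_neg hx, if_pos rfl, if_neg hx, if_pos rfl, Finset.card_erase_of_mem hb]
        have : 0 < (G.N x).card := Finset.card_pos.2 ⟨a, hb⟩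
        omega
      · rw [if_neg hx, if_neg hx2, if_neg hx, if_neg hx2]
        omega
  have h2 : degSum G = ∑ x ∈ G.V, (((delE G a b).N x).card +
      ((if x = a then 1 else 0) + (if x = b then 1 else 0))) := Finset.sum_congr rfl h1
  rw [h2, Finset.sum_add_distrib, Finset.sum_add_distrib, Finset.sum_ite_eq' G.V a,
    Finset.sum_ite_eq' G.V b, if_pos haV, if_pos hbV]
  rfl

theorem st_WE : ST_WE := by
  intro G a b h
  have h1 := we_deg G a b h
  constructor
  · unfold W
    rw [← Real.exp_add]
    congr 1
    have h2 : (degSum G : ℝ) = (degSum (delE G a b) : ℝ) + 2 := by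
      rw [← h1]
      push_cast
      ring
    rw [h2]
    show (AA * (G.V.card : ℝ) + cc * (degSum (delE G a b) : ℝ)) / 2 = _
    ring
  · unfold size
    show G.V.card + degSum (delE G a b) < G.V.card + degSum G
    omega

end Pool.Agent.Helper76.PC
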